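import Pool.Agent.Helper80.HG.StL

/-!
# Project HG (MP_1bacb5_al), module AD: algebraic dependence in a finitely generated field of germs
-/

set_option autoImplicit false

namespace Pool.Agent.Helper37.HG

open Pool.Agent.Helper80.HG Filter Topology

/-- the field of germs at an ultrafilter -/
private abbrev GF (φ : Ultrafilter ℝ) : Type := Filter.Germ (φ : Filter ℝ) ℝ

/-- the germ of a function -/
private noncomputable def gm (φ : Ultrafilter ℝ) : (ℝ → ℝ) →+* GF φ := Filter.Germ.coeRingHom _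

private lemma gm_eq (φ : Ultrafilter ℝ) {f g : ℝ → ℝ} : gm φ f = gm φ g ↔ ∀ᶠ x in (φ : Filter ℝ), f x = g x :=
  Filter.Germ.coe_eq

private lemma gm_inv (φ : Ultrafilter ℝ) (f : ℝ → ℝ) : gm φ (fun x => (f x)⁻¹) = (gm φ f)⁻¹ := rfl

private lemma gm_add (φ : Ultrafilter ℝ) (f g : ℝ → ℝ) : gm φ (fun x => f x + g x) = gm φ f + gm φ g :=
  map_add (gm φ) f g

private lemma gm_mul (φ : Ultrafilter ℝ) (f g : ℝ → ℝ) : gm φ (fun x => f x * g x) = gm φ f * gm φ g :=
  map_mul (gm φ) f g

/-- the algebra structure by the constants -/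
private noncomputable abbrev algF (φ : Ultrafilter ℝ) : Algebra ℝ (GF φ) :=
  RingHom.toAlgebra ((gm φ).comp (Pi.constRingHom ℝ ℝ))

private lemma Gn_mem {M : Set (ℝ → ℝ)} (hM : HK M) {S : Set (ℝ → ℝ)} (hS : S ⊆ M) {f : ℝ → ℝ} (hf : Gn S f) :
    f ∈ M := by
  induction hf with
  | mem h => exact hS h
  | const c => exact hM.const c
  | add _ _ h1 h2 => exact hM.add _ h1 _ h2
  | mul _ _ h1 h2 => exact hM.mul _ h1 _ h2
  | inv _ h1 => exact hM.inv _ h1
  | congr _ h2 h1 => exact hM.congr _ h1 _ h2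

private lemma Gn_adjoin (φ : Ultrafilter ℝ) (hφ : (φ : Filter ℝ) ≤ atTop) {S : Set (ℝ → ℝ)} {f : ℝ → ℝ}
    (hf : Gn S f) :
    letI := algF φ
    gm φ f ∈ IntermediateField.adjoin ℝ (gm φ '' S) := by
  letI := algF φ
  change gm φ f ∈ IntermediateField.adjoin ℝ (gm φ '' S)
  induction hf with
  | mem h => exact IntermediateField.subset_adjoin _ _ (Set.mem_image_of_mem _ h)
  | const c => exact (IntermediateField.adjoin ℝ (gm φ '' S)).algebraMap_mem c
  | add _ _ h1 h2 =>
    rw [gm_add]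
    exact add_mem h1 h2
  | mul _ _ h1 h2 =>
    rw [gm_mul]
    exact mul_mem h1 h2
  | inv _ h1 =>
    rw [gm_inv]
    exact inv_mem h1
  | congr _ h2 h1 =>
    have h3 := (gm_eq φ).2 (hφ h2)
    rw [← h3]
    exact h1

private lemma eval_mem {M : Set (ℝ → ℝ)} (hM : HK M) {ι : Type} (g : ι → ℝ → ℝ) (hg : ∀ i, g i ∈ M)
    (P : MvPolynomial ι ℝ) : (fun x => MvPolynomial.eval (fun i => g i x) P) ∈ M := by
  induction P using MvPolynomial.induction_on with
  | C a =>
    simp only [MvPolynomial.eval_C]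
    exact hM.const a
  | add p q hp hq =>
    simp only [map_add]
    exact hM.add _ hp _ hq
  | mul_X p i hp =>
    simp only [map_mul, MvPolynomial.eval_X]
    exact hM.mul _ hp _ (hg i)

private lemma eval_gm (φ : Ultrafilter ℝ) {ι : Type} (g : ι → ℝ → ℝ) (P : MvPolynomial ι ℝ) :
    letI := algF φ
    gm φ (fun x => MvPolynomial.eval (fun i => g i x) P) = MvPolynomial.aeval (fun i => gm φ (g i)) P := by
  letI := algF φ
  change gm φ (fun x => MvPolynomial.eval (fun i => g i x) P) = MvPolynomial.aeval (fun i => gm φ (g i)) P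
  induction P using MvPolynomial.induction_on with
  | C a =>
    simp only [MvPolynomial.eval_C, MvPolynomial.aeval_C]
    rfl
  | add p q hp hq =>
    simp only [map_add]
    rw [gm_add, hp, hq]
  | mul_X p i hp =>
    simp only [map_mul, MvPolynomial.eval_X, MvPolynomial.aeval_X]
    rw [gm_mul, hp]

/-- Module AD. -/
theorem hAD : StAD := by
  classical
  intro hAL M hM S hSM g hg
  let φ : Ultrafilter ℝ := Ultrafilter.of atTop
  have hφ : (φ : Filter ℝ) ≤ atTop := Ultrafilter.of_le _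
  letI := algF φ
  obtain ⟨P, hP0, hP⟩ := hAL (GF φ) (S.image (gm φ)) S.card (fun i => gm φ (g i)) Finset.card_image_le
    (by
      intro i
      have h1 := Gn_adjoin φ hφ (hg i)
      rw [Finset.coe_image]
      exact h1)
  refine ⟨P, hP0, ?_⟩
  have hmem := eval_mem hM g (fun i => Gn_mem hM hSM (hg i)) P
  have h2 : ∀ᶠ x in (φ : Filter ℝ), MvPolynomial.eval (fun i => g i x) P = 0 := by
    have h3 : gm φ (fun x => MvPolynomial.eval (fun i => g i x) P) = gm φ (fun _ => 0) := by
      rw [eval_gm φ g P]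
      have h4 : gm φ (fun _ => 0) = 0 := map_zero (gm φ)
      rw [h4]
      exact hP
    exact (gm_eq φ).1 h3
  rcases hM.sign _ hmem with h | h | h
  · exact h
  · exfalso
    have h4 : ∀ᶠ x in (φ : Filter ℝ), 0 < MvPolynomial.eval (fun i => g i x) P := hφ h
    obtain ⟨x, hx1, hx2⟩ := (Filter.Eventually.and h4 h2).exists
    exact absurd hx2 hx1.ne'
  · exfalso
    have h4 : ∀ᶠ x in (φ : Filter ℝ), MvPolynomial.eval (fun i => g i x) P < 0 := hφ h
    obtain ⟨x, hx1, hx2⟩ := (Filter.Eventually.and h4 h2).exists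
    exact absurd hx2 hx1.ne

end Pool.Agent.Helper37.HG
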