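import Pool.Agent.Helper80.HG.St

/-!
# Project HG (MP_1bacb5_al), module CD: commuting elements have comparable displacements
-/

set_option autoImplicit false

namespace Pool.Agent.Helper37.HG

open Pool.Agent.Helper80.HG Filter Topology Asymptotics

open scoped commutatorElement

/-- The displacement of the inverse. -/
private lemma cd_inv {H : Set (ℝ → ℝ)} {Γ : Type} [Group Γ] {θ : Γ → ℝ → ℝ} (hS : SB H θ) (z : Γ) :
    dsp θ z⁻¹ =O[atTop] dsp θ z := by
  obtain ⟨S, hS1⟩ := hS.big (dsp θ z)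
  rw [← hS1]
  exact S.inv_mem ((hS1 z).2 (isBigO_refl _ _))

/-- Both elements positive. -/
private lemma cd_pos (hCO : StCO) {H : Set (ℝ → ℝ)} (hB : Bas H) {Γ : Type} [Group Γ] {θ : Γ → ℝ → ℝ}
    (hS : SB H θ) (u z : Γ) (hz : Pos θ z) (hu : Pos θ u) (hc : u * z = z * u) :
    dsp θ u =O[atTop] dsp θ z := by
  obtain ⟨S, hS1⟩ := hS.big (dsp θ z)
  obtain ⟨N, hN⟩ := hCO H hB Γ θ hS.toRB u z hz hc
  have h1 : dsp θ (z ^ N) =O[atTop] dsp θ z := by
    rw [← hS1]
    exact S.pow_mem ((hS1 z).2 (isBigO_refl _ _)) N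
  refine IsBigO.trans ?_ h1
  refine IsBigO.of_bound 1 ?_
  have hu' : ∀ᶠ x in atTop, x < θ u x := hu
  filter_upwards [hN, hu'] with x hx1 hx2
  unfold dsp
  rw [Real.norm_eq_abs, Real.norm_eq_abs, abs_of_pos (by linarith), one_mul, abs_of_pos (by linarith)]
  linarith

/-- `z` positive. -/
private lemma cd_zpos (hCO : StCO) {H : Set (ℝ → ℝ)} (hB : Bas H) {Γ : Type} [Group Γ] {θ : Γ → ℝ → ℝ}
    (hS : SB H θ) (u z : Γ) (hz : Pos θ z) (hc : u * z = z * u) :
    dsp θ u =O[atTop] dsp θ z := by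
  rcases hS.tri u with h | h | h
  · have h0 : dsp θ u =ᶠ[atTop] fun _ => (0 : ℝ) := by
      have h' : ∀ᶠ x in atTop, θ u x = x := h
      filter_upwards [h'] with x hx
      unfold dsp
      rw [hx, sub_self]
    exact h0.trans_isBigO (isBigO_zero _ _)
  · exact cd_pos hCO hB hS u z hz h hc
  · have hc' : u⁻¹ * z = z * u⁻¹ := by
      rw [inv_mul_eq_iff_eq_mul, ← mul_assoc, hc, mul_assoc, mul_inv_cancel, mul_one]
    have h1 := cd_pos hCO hB hS u⁻¹ z hz h hc'
    obtain ⟨S, hS1⟩ := hS.big (dsp θ z)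
    rw [← hS1] at h1 ⊢
    have := S.inv_mem h1
    rwa [inv_inv] at this

/-- Module CD. -/
theorem hCD : StCD := by
  intro hCO H hB Γ _ θ hS u z hz hc
  rcases hS.tri z with h | h | h
  · exact absurd h hz
  · exact cd_zpos hCO hB hS u z h hc
  · have hc' : u * z⁻¹ = z⁻¹ * u := by
      rw [eq_inv_mul_iff_mul_eq, ← mul_assoc, ← hc, mul_assoc, mul_inv_cancel, mul_one]
    exact (cd_zpos hCO hB hS u z⁻¹ h hc').trans (cd_inv hS z)

end Pool.Agent.Helper37.HG
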